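import Mathlib

set_option autoImplicit false

/-!
# A non-metrizable dyadic compact space `X` with `C_p(X)` hereditarily subparacompact

We show that for `X = {0,1}^𝔠` (the Cantor cube with `𝔠 = 2^ω` factors) the space `C_p(X)` has a
network which is a countable union of discrete families, and in fact a network of this kind for the
sup-norm topology.  Hence every subspace of `C_p(X)` is subparacompact, while `X` is a
non-metrizable dyadic compact space.
-/

namespace Pool.Agent.Results.MP_158c61_gt.DyadicCounterexample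

open Set Topology Filter

/-- `C_p(X)`: the set of continuous real functions on `X`, with the subspace topology inherited from
the product `ℝ^X`, i.e. the topology of pointwise convergence. -/
abbrev Cp (X : Type) [TopologicalSpace X] : Type := {f : X → ℝ // Continuous f}

/-- `X` is a dyadic compact space: a compact Hausdorff space that is a continuous image of a Cantor
cube `{0,1}^κ`. -/
def IsDyadicCompact (X : Type) [TopologicalSpace X] : Prop :=
  CompactSpace X ∧ T2Space X ∧
    ∃ (κ : Type) (φ : (κ → Bool) → X), Continuous φ ∧ Function.Surjective φ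

/-- A family of subsets of `Z` is discrete: every point of `Z` has a neighbourhood which meets at
most one member of the family. -/
def IsDiscreteFamily {Z : Type} [TopologicalSpace Z] (F : Set (Set Z)) : Prop :=
  ∀ z : Z, ∃ V ∈ 𝓝 z, ∀ A ∈ F, ∀ B ∈ F, (A ∩ V).Nonempty → (B ∩ V).Nonempty → A = B

/-- `Z` is subparacompact: every open cover `𝒰` of `Z` has a σ-discrete closed refinement, i.e. a
cover `⋃ₙ F n` of `Z` by closed sets, each contained in a member of `𝒰`, with each `F n` a discrete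
family. -/
def Subparacompact (Z : Type) [TopologicalSpace Z] : Prop :=
  ∀ 𝒰 : Set (Set Z), (∀ U ∈ 𝒰, IsOpen U) → (∀ z : Z, ∃ U ∈ 𝒰, z ∈ U) →
    ∃ F : ℕ → Set (Set Z),
      (∀ n, IsDiscreteFamily (F n)) ∧
      (∀ n, ∀ A ∈ F n, IsClosed A ∧ ∃ U ∈ 𝒰, A ⊆ U) ∧
      (∀ z : Z, ∃ n, ∃ A ∈ F n, z ∈ A)

/-- `Z` is hereditarily subparacompact: every subspace of `Z` is subparacompact. -/
def HereditarilySubparacompact (Z : Type) [TopologicalSpace Z] : Prop :=
  ∀ S : Set Z, Subparacompact S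

section Combinatorics

variable {ι : Type}

/-- The oscillation of `f` over `S` is at most `ε`: points which agree on `S` have `ε`-close
values. -/
def Osc (f : (ι → Bool) → ℝ) (S : Finset ι) (ε : ℝ) : Prop :=
  ∀ x y : ι → Bool, (∀ a ∈ S, x a = y a) → |f x - f y| ≤ ε

lemma Osc.mono {f : (ι → Bool) → ℝ} {S T : Finset ι} {ε ε' : ℝ} (h : Osc f S ε) (hST : S ⊆ T)
    (hε : ε ≤ ε') : Osc f T ε' := fun x y hxy =>
  (h x y (fun a ha => hxy a (hST ha))).trans hε

/-- A continuous function on the cube nearly depends on finitely many coordinates. -/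
lemma exists_osc {f : (ι → Bool) → ℝ} (hf : Continuous f) {ε : ℝ} (hε : 0 < ε) :
    ∃ W : Finset ι, Osc f W ε := by
  classical
  have key : ∀ x : ι → Bool, ∃ W : Finset ι, ∀ y : ι → Bool, (∀ a ∈ W, y a = x a) →
      |f y - f x| < ε / 2 := by
    intro x
    have h1 : {y | |f y - f x| < ε / 2} ∈ 𝓝 x := by
      have := (hf.tendsto x) (Metric.ball_mem_nhds (f x) (half_pos hε))
      simpa [Metric.ball, Real.dist_eq] using this
    rw [nhds_pi, Filter.mem_pi] at h1
    obtain ⟨I, hI, t, ht, hsub⟩ := h1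
    refine ⟨hI.toFinset, fun y hy => hsub ?_⟩
    intro a ha
    have : y a = x a := hy a (by simpa using ha)
    rw [this]
    exact mem_of_mem_nhds (ht a)
  choose W hW using key
  have hopen : ∀ x : ι → Bool, IsOpen {y : ι → Bool | ∀ a ∈ W x, y a = x a} := by
    intro x
    have : {y : ι → Bool | ∀ a ∈ W x, y a = x a} = ⋂ a ∈ W x, {y | y a = x a} := by
      ext y; simp
    rw [this]
    refine isOpen_biInter_finset (fun a _ => ?_)
    have : {y : ι → Bool | y a = x a} = (fun y : ι → Bool => y a) ⁻¹' {x a} := by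
      ext y; simp
    rw [this]
    exact (isOpen_discrete _).preimage (continuous_apply a)
  obtain ⟨t, ht⟩ := isCompact_univ.elim_finite_subcover
    (fun x : ι → Bool => {y : ι → Bool | ∀ a ∈ W x, y a = x a}) hopen
    (fun x _ => mem_iUnion.2 ⟨x, fun a _ => rfl⟩)
  refine ⟨t.biUnion W, fun x y hxy => ?_⟩
  obtain ⟨z, hz⟩ := mem_iUnion.1 (ht (mem_univ x))
  obtain ⟨hzt, hz⟩ := mem_iUnion.1 hz
  have hz' : ∀ a ∈ W z, x a = z a := hz
  have hy' : ∀ a ∈ W z, y a = z a := fun a ha => by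
    rw [← hz' a ha]
    exact (hxy a (Finset.mem_biUnion.2 ⟨z, hzt, ha⟩)).symm
  have h1 := hW z x hz'
  have h2 := hW z y hy'
  have : |f x - f y| ≤ |f x - f z| + |f y - f z| := by
    have := abs_sub_le (f x) (f z) (f y)
    rwa [abs_sub_comm (f z) (f y)] at this
  linarith

/-- The gap lemma: for given `n`, oscillations over sets of size at most `n` do not accumulate at
`ε` from above. -/
lemma exists_gap {f : (ι → Bool) → ℝ} (hf : Continuous f) (ε : ℝ) (n : ℕ) :
    ∃ d : ℕ, ∀ S : Finset ι, S.card ≤ n → Osc f S (ε + 1 / ((d : ℝ) + 1)) → Osc f S ε := by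
  classical
  by_contra hcon
  push Not at hcon
  choose S hcard hS hS' using hcon
  let 𝒰 : Ultrafilter ℕ := Filter.hyperfilter ℕ
  let R : Set ι := {a | ∀ᶠ j in (𝒰 : Filter ℕ), a ∈ S j}
  have hRfin : ∀ A : Finset ι, (A : Set ι) ⊆ R → A.card ≤ n := by
    intro A hA
    have : ∀ᶠ j in (𝒰 : Filter ℕ), ∀ a ∈ A, a ∈ S j :=
      (Filter.eventually_all_finset A).2 (fun a ha => hA ha)
    obtain ⟨j, hj⟩ := this.exists
    exact (Finset.card_le_card hj).trans (hcard j)
  have hfin : R.Finite := by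
    by_contra hinf
    obtain ⟨A, hA, hAc⟩ := Set.Infinite.exists_subset_card_eq hinf (n + 1)
    have := hRfin A hA
    omega
  have hsub : ∀ᶠ j in (𝒰 : Filter ℕ), hfin.toFinset ⊆ S j := by
    have : ∀ᶠ j in (𝒰 : Filter ℕ), ∀ a ∈ hfin.toFinset, a ∈ S j :=
      (Filter.eventually_all_finset _).2 (fun a ha => by simpa [R] using ha)
    exact this
  have hosc : Osc f hfin.toFinset ε := by
    intro x y hxy
    refine le_of_forall_pos_le_add (fun η hη => ?_)
    obtain ⟨W, hW⟩ := exists_osc hf (half_pos hη)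
    let y' : ι → Bool := fun a => if a ∈ W then y a else x a
    have hy' : |f y - f y'| ≤ η / 2 := hW _ _ (fun a ha => by simp [y', ha])
    have h1 : ∀ᶠ j in (𝒰 : Filter ℕ), ∀ a ∈ W, a ∈ S j → a ∈ R := by
      refine (Filter.eventually_all_finset W).2 (fun a _ => ?_)
      by_cases haR : a ∈ R
      · exact Filter.Eventually.of_forall (fun j _ => haR)
      · have : ∀ᶠ j in (𝒰 : Filter ℕ), a ∉ S j := by
          have := haR
          simp only [R, Set.mem_ofPred_eq] at this
          exact Ultrafilter.eventually_not.2 this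
        exact this.mono (fun j hj h => absurd h hj)
    have h2 : ∀ᶠ j : ℕ in (𝒰 : Filter ℕ), 1 / ((j : ℝ) + 1) ≤ η / 2 := by
      have h3 : ∀ᶠ j : ℕ in (atTop : Filter ℕ), 1 / ((j : ℝ) + 1) ≤ η / 2 := by
        have := tendsto_one_div_add_atTop_nhds_zero_nat (𝕜 := ℝ)
        have := this.eventually (gt_mem_nhds (half_pos hη))
        exact this.mono (fun j hj => hj.le)
      have hle : (𝒰 : Filter ℕ) ≤ atTop := by
        rw [← Nat.cofinite_eq_atTop]
        exact Filter.hyperfilter_le_cofinite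
      exact hle h3
    obtain ⟨j, hj1, hj2⟩ := (h1.and h2).exists
    have h4 : |f x - f y'| ≤ ε + 1 / ((j : ℝ) + 1) := by
      refine hS j x y' (fun a ha => ?_)
      by_cases haW : a ∈ W
      · have : a ∈ R := hj1 a haW ha
        simp only [y', haW, if_true]
        exact hxy a (by simpa using this)
      · simp [y', haW]
    have h5 : |f x - f y| ≤ |f x - f y'| + |f y' - f y| := abs_sub_le _ _ _
    rw [abs_sub_comm (f y') (f y)] at h5
    linarith
  obtain ⟨j, hj⟩ := hsub.exists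
  exact hS' j (hosc.mono hj le_rfl)

variable (e : ι → ℕ → Bool)

/-- The elements of `S` are distinguished by the first `m` bits of their codes. -/
def Sep (m : ℕ) (S : Finset ι) : Prop :=
  ∀ a ∈ S, ∀ b ∈ S, (∀ i < m, e a i = e b i) → a = b

lemma exists_sep (he : Function.Injective e) (S : Finset ι) : ∃ m, Sep e m S := by
  classical
  have key : ∀ a b : ι, ∃ m : ℕ, (∀ i < m, e a i = e b i) → a = b := by
    intro a b
    by_cases hab : a = b
    · exact ⟨0, fun _ => hab⟩
    · have : e a ≠ e b := fun h => hab (he h)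
      obtain ⟨i, hi⟩ := Function.ne_iff.1 this
      exact ⟨i + 1, fun h => absurd (h i (Nat.lt_succ_self i)) hi⟩
  choose m hm using key
  refine ⟨(S ×ˢ S).sup (fun p => m p.1 p.2), fun a ha b hb h => hm a b (fun i hi => h i ?_)⟩
  have : m a b ≤ (S ×ˢ S).sup (fun p : ι × ι => m p.1 p.2) :=
    Finset.le_sup (f := fun p : ι × ι => m p.1 p.2) (Finset.mk_mem_product ha hb)
  omega

lemma Sep.mono {m : ℕ} {S T : Finset ι} (h : Sep e m S) (hT : T ⊆ S) : Sep e m T :=
  fun a ha b hb hab => h a (hT ha) b (hT hb) hab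

/-- The finite set of test points attached to a finite set `W` and a level `m`. -/
noncomputable def testPts (W : Finset ι) (m : ℕ) : Set (ι → Bool) :=
  open Classical in
  Set.range (fun pq : (W → Bool) × ((Fin m → Bool) → Bool) =>
    fun a : ι => if h : a ∈ W then pq.1 ⟨a, h⟩ else pq.2 (fun i => e a i))

lemma testPts_finite (W : Finset ι) (m : ℕ) : (testPts e W m).Finite := by
  classical
  exact Set.finite_range _

/-- Test points realise all patterns on `W ∪ T` when `T` is separated at level `m`. -/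
lemma exists_testPt (W : Finset ι) (m : ℕ) {T : Finset ι} (hT : Sep e m T) (x : ι → Bool) :
    ∃ t ∈ testPts e W m, (∀ a ∈ W, t a = x a) ∧ (∀ a ∈ T, t a = x a) ∧
      (T = ∅ → ∀ a ∉ W, t a = false) := by
  classical
  let q : (Fin m → Bool) → Bool := fun c => decide (∃ b ∈ T, (fun i : Fin m => e b i) = c ∧ x b = true)
  refine ⟨_, ⟨(fun a => x a, q), rfl⟩, ?_, ?_, ?_⟩
  · intro a ha
    simp [ha]
  · intro a ha
    by_cases haW : a ∈ W
    · simp [haW]
    · simp only [haW, dite_false, q]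
      by_cases hxa : x a = true
      · rw [hxa]
        simp only [decide_eq_true_eq]
        exact ⟨a, ha, rfl, hxa⟩
      · have hxa' : x a = false := by simpa using hxa
        rw [hxa']
        simp only [decide_eq_false_iff_not]
        rintro ⟨b, hb, hbc, hxb⟩
        have : b = a := hT b hb a ha (fun i hi => by simpa using congrFun hbc ⟨i, hi⟩)
        rw [this] at hxb
        exact hxa hxb
  · intro hTe a ha
    simp [ha, q, hTe]

/-- The pieces of the decomposition. -/
structure Piece (ε δ : ℝ) (n m : ℕ) (f : (ι → Bool) → ℝ) : Prop where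
  low : ∀ S : Finset ι, S.card < n → ¬ Osc f S ε
  gap : ∀ S : Finset ι, S.card ≤ n → Osc f S (ε + δ) → Osc f S ε
  app : ∃ T : Finset ι, Sep e m T ∧ Osc f T (δ / 8)

/-- The label of a function in a piece. -/
def Lab (ε : ℝ) (n : ℕ) (f : (ι → Bool) → ℝ) : Set (Finset ι) := {S | S.card = n ∧ Osc f S ε}

lemma lab_subset {ε δ : ℝ} {n m : ℕ} (hδ : 0 < δ) {g : (ι → Bool) → ℝ} {W : Finset ι}
    (hW : Osc g W (δ / 16)) {f f' : (ι → Bool) → ℝ} (hf : Piece e ε δ n m f)
    (hf' : Piece e ε δ n m f')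
    (h1 : ∀ t ∈ testPts e W m, |f t - g t| < δ / 16)
    (h2 : ∀ t ∈ testPts e W m, |f' t - g t| < δ / 16) :
    Lab ε n f ⊆ Lab ε n f' := by
  classical
  rintro S ⟨hSn, hS⟩
  -- the oscillation of `g` over `R = S ∩ W`
  have hgR : Osc g (S ∩ W) (ε + δ / 4) := by
    intro x y hxy
    have hemp : Sep e m (∅ : Finset ι) := fun a ha => by simp at ha
    obtain ⟨x', hx'T, hx'W, -, hx'0⟩ := exists_testPt e W m hemp x
    obtain ⟨y', hy'T, hy'W, -, hy'0⟩ := exists_testPt e W m hemp y
    have hx'0 := hx'0 rfl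
    have hy'0 := hy'0 rfl
    have e1 : |f x' - f y'| ≤ ε := by
      refine hS x' y' (fun a ha => ?_)
      by_cases haW : a ∈ W
      · rw [hx'W a haW, hy'W a haW]
        exact hxy a (Finset.mem_inter.2 ⟨ha, haW⟩)
      · rw [hx'0 a haW, hy'0 a haW]
    have e2 := h1 x' hx'T
    have e3 := h1 y' hy'T
    have e4 : |g x - g x'| ≤ δ / 16 := hW _ _ (fun a ha => (hx'W a ha).symm)
    have e5 : |g y - g y'| ≤ δ / 16 := hW _ _ (fun a ha => (hy'W a ha).symm)
    rw [abs_le] at *
    rw [abs_lt] at e2 e3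
    constructor <;> linarith [e1.1, e1.2, e2.1, e2.2, e3.1, e3.2, e4.1, e4.2, e5.1, e5.2]
  -- hence the oscillation of any nearby `h` in the piece over `R`
  have hhR : ∀ h : (ι → Bool) → ℝ, Piece e ε δ n m h →
      (∀ t ∈ testPts e W m, |h t - g t| < δ / 16) → Osc h (S ∩ W) (ε + δ) := by
    intro h hh hht x y hxy
    obtain ⟨T, hTm, hTo⟩ := hh.app
    obtain ⟨x', hx'T, hx'W, hx'S, -⟩ := exists_testPt e W m hTm x
    obtain ⟨y', hy'T, hy'W, hy'S, -⟩ := exists_testPt e W m hTm y
    have e1 : |g x' - g y'| ≤ ε + δ / 4 := by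
      refine hgR x' y' (fun a ha => ?_)
      have haW := (Finset.mem_inter.1 ha).2
      rw [hx'W a haW, hy'W a haW]
      exact hxy a ha
    have e2 := hht x' hx'T
    have e3 := hht y' hy'T
    have e4 : |h x - h x'| ≤ δ / 8 := hTo _ _ (fun a ha => (hx'S a ha).symm)
    have e5 : |h y - h y'| ≤ δ / 8 := hTo _ _ (fun a ha => (hy'S a ha).symm)
    rw [abs_le] at *
    rw [abs_lt] at e2 e3
    constructor <;> linarith [e1.1, e1.2, e2.1, e2.2, e3.1, e3.2, e4.1, e4.2, e5.1, e5.2]
  have hRcard : (S ∩ W).card ≤ n := (Finset.card_le_card Finset.inter_subset_left).trans hSn.le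
  have hfR : Osc f (S ∩ W) ε := hf.gap _ hRcard (hhR f hf h1)
  have hge : n ≤ (S ∩ W).card := by
    by_contra hlt
    exact hf.low _ (not_le.1 hlt) hfR
  have hEq : S ∩ W = S :=
    Finset.eq_of_subset_of_card_le Finset.inter_subset_left (hSn.le.trans hge)
  have hf'R : Osc f' (S ∩ W) ε := hf'.gap _ hRcard (hhR f' hf' h2)
  rw [hEq] at hf'R
  exact ⟨hSn, hf'R⟩

/-- The members of the network: functions in the piece with label `L`, with a separated element in
the label, whose values at the canonical points of level `m` are prescribed up to `ε`. -/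
def Net (ε δ : ℝ) (n m : ℕ) (q : ((Fin m → Bool) → Bool) → ℚ) (L : Set (Finset ι)) :
    Set ((ι → Bool) → ℝ) :=
  {f | Piece e ε δ n m f ∧ Lab ε n f = L ∧ (∃ S ∈ L, Sep e m S) ∧
    ∀ p : (Fin m → Bool) → Bool, |f (fun a => p (fun i => e a i)) - q p| ≤ ε}

lemma net_small {ε δ : ℝ} {n m : ℕ} {q : ((Fin m → Bool) → Bool) → ℚ} {L : Set (Finset ι)}
    {f f' : (ι → Bool) → ℝ} (hf : f ∈ Net e ε δ n m q L) (hf' : f' ∈ Net e ε δ n m q L)
    (x : ι → Bool) : |f' x - f x| ≤ 4 * ε := by
  classical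
  obtain ⟨-, hL, ⟨S, hSL, hSm⟩, hq⟩ := hf
  obtain ⟨-, hL', -, hq'⟩ := hf'
  have hS : Osc f S ε := by rw [← hL] at hSL; exact hSL.2
  have hS' : Osc f' S ε := by rw [← hL'] at hSL; exact hSL.2
  let p : (Fin m → Bool) → Bool := fun c => decide (∃ b ∈ S, (fun i : Fin m => e b i) = c ∧ x b = true)
  have hp : ∀ a ∈ S, x a = p (fun i => e a i) := by
    intro a ha
    by_cases hxa : x a = true
    · rw [hxa]
      simp only [p]
      symm
      simp only [decide_eq_true_eq]
      exact ⟨a, ha, rfl, hxa⟩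
    · have hxa' : x a = false := by simpa using hxa
      rw [hxa']
      simp only [p]
      symm
      simp only [decide_eq_false_iff_not]
      rintro ⟨b, hb, hbc, hxb⟩
      have : b = a := hSm b hb a ha (fun i hi => by simpa using congrFun hbc ⟨i, hi⟩)
      rw [this] at hxb
      exact hxa hxb
  have e1 := hS x _ hp
  have e2 := hS' x _ hp
  have e3 := hq p
  have e4 := hq' p
  rw [abs_le] at *
  constructor <;> linarith [e1.1, e1.2, e2.1, e2.2, e3.1, e3.2, e4.1, e4.2]

lemma exists_net (he : Function.Injective e) {f : (ι → Bool) → ℝ} (hf : Continuous f) {ε : ℝ}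
    (hε : 0 < ε) : ∃ (d n m : ℕ) (q : ((Fin m → Bool) → Bool) → ℚ) (L : Set (Finset ι)),
      f ∈ Net e ε (1 / ((d : ℝ) + 1)) n m q L := by
  classical
  have hex : ∃ n, ∃ S : Finset ι, S.card = n ∧ Osc f S ε := by
    obtain ⟨W, hW⟩ := exists_osc hf hε
    exact ⟨W.card, W, rfl, hW⟩
  obtain ⟨S, hSn, hS⟩ := Nat.find_spec hex
  have hmin : ∀ T : Finset ι, T.card < Nat.find hex → ¬ Osc f T ε := by
    intro T hT hT'
    exact Nat.find_min hex hT ⟨T, rfl, hT'⟩
  obtain ⟨d, hd⟩ := exists_gap hf ε (Nat.find hex)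
  have hδ : (0 : ℝ) < 1 / ((d : ℝ) + 1) := by positivity
  obtain ⟨T, hT⟩ := exists_osc hf (show (0 : ℝ) < 1 / ((d : ℝ) + 1) / 8 by positivity)
  obtain ⟨m, hm⟩ := exists_sep e he (S ∪ T)
  have hq : ∀ p : (Fin m → Bool) → Bool, ∃ r : ℚ, |f (fun a => p (fun i => e a i)) - r| ≤ ε := by
    intro p
    obtain ⟨r, hr⟩ := exists_rat_near (f (fun a => p (fun i => e a i))) hε
    exact ⟨r, hr.le⟩
  choose q hq using hq
  exact ⟨d, Nat.find hex, m, q, Lab ε (Nat.find hex) f,
    ⟨hmin, hd, T, hm.mono e Finset.subset_union_right, hT⟩, rfl,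
    ⟨S, ⟨hSn, hS⟩, hm.mono e Finset.subset_union_left⟩, hq⟩

end Combinatorics

/-- A neighbourhood in `C_p(X)` contains a sup-norm ball. -/
lemma exists_ball {X : Type} [TopologicalSpace X] (g : Cp X) {U : Set (Cp X)} (hU : U ∈ 𝓝 g) :
    ∃ r : ℝ, 0 < r ∧ ∀ h : Cp X, (∀ x, |h.1 x - g.1 x| < r) → h ∈ U := by
  rw [nhds_subtype_eq_comap, Filter.mem_comap] at hU
  obtain ⟨V, hV, hVU⟩ := hU
  rw [nhds_pi, Filter.mem_pi] at hV
  obtain ⟨I, hI, t, ht, hsub⟩ := hV
  have : ∀ x, ∃ r : ℝ, 0 < r ∧ Metric.ball (g.1 x) r ⊆ t x := fun x => Metric.mem_nhds_iff.1 (ht x)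
  choose r hr hrt using this
  rcases hI.toFinset.eq_empty_or_nonempty with hemp | hne
  · refine ⟨1, one_pos, fun h _ => hVU (hsub (fun x hx => ?_))⟩
    exfalso
    have : x ∈ hI.toFinset := by simpa using hx
    rw [hemp] at this
    simp at this
  · refine ⟨hI.toFinset.inf' hne r, ?_, fun h hh => hVU (hsub (fun x hx => hrt x ?_))⟩
    · rw [Finset.lt_inf'_iff]
      exact fun x _ => hr x
    · rw [Metric.mem_ball, Real.dist_eq]
      exact (hh x).trans_le (Finset.inf'_le r (by simpa using hx))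

/-- The sup-norm closed balls are closed in `C_p(X)`. -/
lemma isClosed_ball {X : Type} [TopologicalSpace X] (g : Cp X) (r : ℝ) :
    IsClosed {h : Cp X | ∀ x, |h.1 x - g.1 x| ≤ r} := by
  have : {h : Cp X | ∀ x, |h.1 x - g.1 x| ≤ r} = ⋂ x, {h : Cp X | |h.1 x - g.1 x| ≤ r} := by
    ext h; simp
  rw [this]
  refine isClosed_iInter (fun x => ?_)
  have hc : Continuous (fun h : Cp X => |h.1 x - g.1 x|) := by
    have : Continuous (fun h : Cp X => h.1 x) := (continuous_apply x).comp continuous_subtype_val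
    exact (this.sub continuous_const).abs
  exact isClosed_le hc continuous_const

/-- Main theorem: `C_p({0,1}^ι)` is hereditarily subparacompact if `ι` injects into `2^ω`. -/
theorem hereditarilySubparacompact_cube {ι : Type} (e : ι → ℕ → Bool)
    (he : Function.Injective e) : HereditarilySubparacompact (Cp (ι → Bool)) := by
  classical
  intro Z 𝒰 hopen hcov
  -- the countable index set
  let Idx : Type := (ℕ × ℕ × ℕ) × (Σ m : ℕ, (((Fin m → Bool) → Bool) → ℚ))
  obtain ⟨dec, hdec⟩ := exists_surjective_nat Idx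
  -- the members of the network as subsets of `Z`
  let N : Idx → Set (Finset ι) → Set Z := fun c L =>
    {z : Z | z.1.1 ∈ Net e (1 / ((c.1.1 : ℝ) + 1)) (1 / ((c.1.2.1 : ℝ) + 1)) c.1.2.2 c.2.1 c.2.2 L}
  let F : ℕ → Set (Set Z) := fun k =>
    {A | ∃ L, A = closure (N (dec k) L) ∧ ∃ U ∈ 𝒰, A ⊆ U}
  refine ⟨F, ?_, ?_, ?_⟩
  · -- discreteness
    intro k z
    set c := dec k with hc
    have hδ : (0 : ℝ) < 1 / ((c.1.2.1 : ℝ) + 1) := by positivity
    obtain ⟨W, hW⟩ := exists_osc z.1.2 (show (0 : ℝ) < (1 / ((c.1.2.1 : ℝ) + 1)) / 16 by positivity)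
    let V : Set Z := {y : Z | ∀ t ∈ testPts e W c.2.1, |y.1.1 t - z.1.1 t| < (1 / ((c.1.2.1 : ℝ) + 1)) / 16}
    have hVopen : IsOpen V := by
      have hV : V = ⋂ t ∈ testPts e W c.2.1,
          {y : Z | |y.1.1 t - z.1.1 t| < (1 / ((c.1.2.1 : ℝ) + 1)) / 16} := by
        ext y; simp [V]
      rw [hV]
      refine (testPts_finite e W c.2.1).isOpen_biInter (fun t _ => ?_)
      have hcont : Continuous (fun y : Z => |y.1.1 t - z.1.1 t|) := by
        have h1 : Continuous (fun y : Z => y.1.1) :=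
          continuous_subtype_val.comp continuous_subtype_val
        have : Continuous (fun y : Z => y.1.1 t) := (continuous_apply t).comp h1
        exact (this.sub continuous_const).abs
      exact isOpen_lt hcont continuous_const
    have hzV : z ∈ V := by
      intro t _
      simp only [sub_self, abs_zero]
      positivity
    refine ⟨V, hVopen.mem_nhds hzV, ?_⟩
    rintro A ⟨L, hA, -⟩ B ⟨L', hB, -⟩ hAV hBV
    have hAV' : (N c L ∩ V).Nonempty := by
      rw [hA] at hAV
      obtain ⟨y, hy1, hy2⟩ := hAV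
      obtain ⟨w, hw1, hw2⟩ := mem_closure_iff.1 hy1 V hVopen hy2
      exact ⟨w, hw2, hw1⟩
    have hBV' : (N c L' ∩ V).Nonempty := by
      rw [hB] at hBV
      obtain ⟨y, hy1, hy2⟩ := hBV
      obtain ⟨w, hw1, hw2⟩ := mem_closure_iff.1 hy1 V hVopen hy2
      exact ⟨w, hw2, hw1⟩
    obtain ⟨f, hfN, hfV⟩ := hAV'
    obtain ⟨f', hf'N, hf'V⟩ := hBV'
    have hLL' : L = L' := by
      rw [← hfN.2.1, ← hf'N.2.1]
      exact Set.Subset.antisymm
        (lab_subset e hδ hW hfN.1 hf'N.1 hfV hf'V)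
        (lab_subset e hδ hW hf'N.1 hfN.1 hf'V hfV)
    rw [hA, hB, hLL']
  · -- closed, refinement
    rintro k A ⟨L, hA, hU⟩
    exact ⟨hA ▸ isClosed_closure, hU⟩
  · -- cover
    intro z
    obtain ⟨U, hU𝒰, hzU⟩ := hcov z
    have hUn : U ∈ 𝓝 z := (hopen U hU𝒰).mem_nhds hzU
    rw [mem_nhds_subtype] at hUn
    obtain ⟨U', hU', hUU'⟩ := hUn
    obtain ⟨r, hr, hball⟩ := exists_ball z.1 hU'
    obtain ⟨j, hj⟩ := exists_nat_one_div_lt (show (0 : ℝ) < r / 4 by positivity)
    have hε : (0 : ℝ) < 1 / ((j : ℝ) + 1) := by positivity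
    obtain ⟨d, n, m, q, L, hL⟩ := exists_net e he z.1.2 hε
    obtain ⟨k, hk⟩ := hdec ((j, d, n), ⟨m, q⟩)
    refine ⟨k, closure (N (dec k) L), ⟨L, rfl, U, hU𝒰, ?_⟩, subset_closure ?_⟩
    · have hclosed : IsClosed {y : Z | ∀ x, |y.1.1 x - z.1.1 x| ≤ 4 * (1 / ((j : ℝ) + 1))} :=
        (isClosed_ball z.1 _).preimage continuous_subtype_val
      refine (closure_minimal ?_ hclosed).trans ?_
      · intro y hy x
        have hy' : y.1.1 ∈ Net e (1 / ((j : ℝ) + 1)) (1 / ((d : ℝ) + 1)) n m q L := by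
          have := hy
          simp only [N, hk] at this
          exact this
        exact net_small e hL hy' x
      · intro y hy
        refine hUU' (hball y.1 (fun x => (hy x).trans_lt ?_))
        linarith
    · simp only [N, hk]
      exact hL

/-- The Cantor cube with `2^ω` factors is not metrizable. -/
lemma not_metrizable_cube : ¬ TopologicalSpace.MetrizableSpace ((ℕ → Bool) → Bool) := by
  intro hmet
  have := hmet
  let _ := TopologicalSpace.metrizableSpaceMetric ((ℕ → Bool) → Bool)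
  obtain ⟨B, hB⟩ := (𝓝 (fun _ : ℕ → Bool => false)).exists_antitone_basis
  have key : ∀ k, ∃ W : Finset (ℕ → Bool), ∀ x : (ℕ → Bool) → Bool,
      (∀ a ∈ W, x a = false) → x ∈ B k := by
    intro k
    have h1 : B k ∈ 𝓝 (fun _ : ℕ → Bool => false) := hB.1.mem_of_mem trivial
    rw [nhds_pi, Filter.mem_pi] at h1
    obtain ⟨I, hI, t, ht, hsub⟩ := h1
    refine ⟨hI.toFinset, fun x hx => hsub (fun a ha => ?_)⟩
    rw [hx a (by simpa using ha)]
    exact mem_of_mem_nhds (ht a)
  choose W hW using key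
  have hcount : (⋃ k, (W k : Set (ℕ → Bool))).Countable :=
    Set.countable_iUnion (fun k => (W k).countable_toSet)
  have hne : (⋃ k, (W k : Set (ℕ → Bool))) ≠ univ := by
    intro h
    rw [h] at hcount
    have hc : Countable (ℕ → Bool) := Set.countable_univ_iff.1 hcount
    obtain ⟨f, hf⟩ := exists_surjective_nat (ℕ → Bool)
    obtain ⟨n, hn⟩ := hf (fun n => !(f n n))
    have := congrFun hn n
    simp at this
  obtain ⟨a, ha⟩ := (Set.ne_univ_iff_exists_notMem _).1 hne
  have hopen : {x : (ℕ → Bool) → Bool | x a = false} ∈ 𝓝 (fun _ : ℕ → Bool => false) := by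
    refine IsOpen.mem_nhds ?_ rfl
    have : {x : (ℕ → Bool) → Bool | x a = false} = (fun x : (ℕ → Bool) → Bool => x a) ⁻¹' {false} := by
      ext x; simp
    rw [this]
    exact (isOpen_discrete _).preimage (continuous_apply a)
  obtain ⟨k, -, hk⟩ := hB.1.mem_iff.1 hopen
  classical
  have h2 : (fun b => if b = a then true else false : (ℕ → Bool) → Bool) ∈ B k := by
    refine hW k _ (fun b hb => ?_)
    have : b ≠ a := by
      rintro rfl
      exact ha (mem_iUnion.2 ⟨k, hb⟩)
    simp [this]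
  have := hk h2
  simp at this

/-- **Negative answer to Q1 and Q2.** There is a non-metrizable dyadic compact space `X` such that
`C_p(X)` is subparacompact, and even hereditarily subparacompact. -/
theorem result :
    ∃ (X : Type) (_ : TopologicalSpace X),
      IsDyadicCompact X ∧ ¬ TopologicalSpace.MetrizableSpace X ∧
      Subparacompact (Cp X) ∧ HereditarilySubparacompact (Cp X) := by
  have hher : HereditarilySubparacompact (Cp ((ℕ → Bool) → Bool)) :=
    hereditarilySubparacompact_cube (fun a => a) (fun a b h => h)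
  refine ⟨(ℕ → Bool) → Bool, inferInstance, ⟨inferInstance, inferInstance, ℕ → Bool, id,
    continuous_id, Function.surjective_id⟩, not_metrizable_cube, ?_, hher⟩
  -- the whole space is homeomorphic to its subspace `univ`
  intro 𝒰 hopen hcov
  obtain ⟨F, hF1, hF2, hF3⟩ := hher univ ((fun U => Subtype.val ⁻¹' U) '' 𝒰)
    (by
      rintro _ ⟨U, hU, rfl⟩
      exact (hopen U hU).preimage continuous_subtype_val)
    (by
      intro z
      obtain ⟨U, hU, hz⟩ := hcov z.1
      exact ⟨_, ⟨U, hU, rfl⟩, hz⟩)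
  have hι : Continuous (fun z : Cp ((ℕ → Bool) → Bool) => (⟨z, mem_univ z⟩ : (univ : Set (Cp ((ℕ → Bool) → Bool))))) :=
    continuous_id.subtype_mk _
  refine ⟨fun n => (fun A => (fun z => (⟨z, mem_univ z⟩ : (univ : Set (Cp ((ℕ → Bool) → Bool))))) ⁻¹' A) '' (F n), ?_, ?_, ?_⟩
  · intro n z
    obtain ⟨V, hV, hV'⟩ := hF1 n ⟨z, mem_univ z⟩
    refine ⟨_, hι.continuousAt hV, ?_⟩
    rintro _ ⟨A, hA, rfl⟩ _ ⟨B, hB, rfl⟩ ⟨y, hy1, hy2⟩ ⟨w, hw1, hw2⟩
    rw [hV' A hA B hB ⟨_, hy1, hy2⟩ ⟨_, hw1, hw2⟩]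
  · rintro n _ ⟨A, hA, rfl⟩
    obtain ⟨h1, U, hU, h2⟩ := hF2 n A hA
    obtain ⟨U', hU', rfl⟩ := hU
    exact ⟨h1.preimage hι, U', hU', fun z hz => h2 hz⟩
  · intro z
    obtain ⟨n, A, hA, hz⟩ := hF3 ⟨z, mem_univ z⟩
    exact ⟨n, _, ⟨A, hA, rfl⟩, hz⟩

end Pool.Agent.Results.MP_158c61_gt.DyadicCounterexample
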